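import Pool.Agent.MP_5d5bd1_pr.Mg.Final

open MeasureTheory Filter
open scoped ENNReal BoundedContinuousFunction

namespace Pool.Agent.Results.MP_5d5bd1_pr.AlmostSure

/-- Almost sure oriented Kesten-McKay law, for an arbitrary coupling of the uniform random
`r`-regular 0-1 matrices `A n`, `n ≥ r`. -/
theorem result (r : ℕ) (hr : 3 ≤ r) (Ω : Type) [MeasurableSpace Ω] (P : Measure Ω)
    [IsProbabilityMeasure P] (A : (n : ℕ) → Ω → Matrix (Fin n) (Fin n) (Fin 2))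
    (hA : ∀ n, r ≤ n → ∀ M : Matrix (Fin n) (Fin n) (Fin 2),
      P {ω | A n ω = M} =
        if (∀ i, ∑ j, (M i j : ℕ) = r) ∧ (∀ j, ∑ i, (M i j : ℕ) = r) then
          (Nat.card {M' : Matrix (Fin n) (Fin n) (Fin 2) //
            (∀ i, ∑ j, (M' i j : ℕ) = r) ∧ (∀ j, ∑ i, (M' i j : ℕ) = r)} : ℝ≥0∞)⁻¹
        else 0) :
    ∀ᵐ ω ∂P, ∀ f : ℂ →ᵇ ℝ,
      Tendsto
        (fun n : ℕ =>
          ((((A n ω).map fun x : Fin 2 => ((x : ℕ) : ℂ)).charpoly.roots.map f).sum) / (n : ℝ))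
        atTop
        (nhds (∫ z in Metric.ball (0 : ℂ) (Real.sqrt r),
          f z * ((r : ℝ) ^ 2 * ((r : ℝ) - 1) / (Real.pi * ((r : ℝ) ^ 2 - ‖z‖ ^ 2) ^ 2)))) := by
  have h := Pool.Agent.OKM.main r hr Ω P A (fun n hn M => by
    rw [hA n hn M, Nat.card_eq_fintype_card, Fintype.card_subtype]
    simp only [Pool.Agent.OKM.regs, Finset.mem_filter, Finset.mem_univ, true_and])
  simp only [Pool.Agent.OKM.integral_emp] at h
  exact h

end Pool.Agent.Results.MP_5d5bd1_pr.AlmostSure
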